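import Pool.Agent.H86.KS.Ix
import Pool.Agent.H38.T1.Ec

/-!
ROW Cy.  PROOF.  `E := fixedField (Hs hζ (2 ^ s))`. (a) `finrank ℚ E = index` : `IntermediateField.finrank_fixedField_eq_card` (degree of `M` over `E` is the order of the subgroup), `IsGalois.card_aut_eq_finrank`, tower law,
`Subgroup.card_mul_index`; and `index_Hs`. (b) `E` is Galois over `ℚ` since the subgroup is normal (`IsGalois.of_fixedField_normal_subgroup`). (c) `E` is totally real: `H38T1.isTR` (a Galois number field of odd degree; Pool/Agent/H38/T1/Ec.lean).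
(d) `E ≤ adjoin ℚ {ζ}` (`IntermediateField.adjoin`): an automorphism `g` trivial on `adjoin ℚ {ζ}` satisfies `g ζ = ζ`, so `g ∈ Hs hζ (2 ^ s)` (`mem_Hs_iff`; `(g ^ k) ζ = ζ` by induction), so `(adjoin ℚ {ζ}).fixingSubgroup ≤ Hs ..`,
`E ≤ fixedField ((adjoin ℚ {ζ}).fixingSubgroup) = adjoin ℚ {ζ}` (`IsGalois.fixedField_fixingSubgroup`, `IntermediateField.fixedField_antitone` / `le_iff_le`). `adjoin ℚ {ζ}` is a cyclotomic extension (`IsPrimitiveRoot.intermediateField_adjoin_isCyclotomicExtension`)
so isomorphic to `CyclotomicField (p ^ (i + 1)) ℚ` (`IsCyclotomicExtension.algEquiv`). So there is `E →+* CyclotomicField (p ^ (i + 1)) ℚ`: `H5SW.IsR`.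
-/

set_option autoImplicit false

open NumberField IsDedekindDomain H38T1

namespace H86KS

theorem isR_Hs {M : Type} [Field M] [NumberField M] [IsGalois ℚ M] {p : ℕ} [Fact p.Prime]
    (hp2 : p ≠ 2) {i m s : ℕ} (hm : p - 1 = m * 2 ^ s) (ho : Odd m) {ζ : M}
    (hζ : IsPrimitiveRoot ζ (p ^ (i + 1))) :
    H5SW.IsR p (IntermediateField.fixedField (Hs hζ (2 ^ s))) ∧
      Module.finrank ℚ (IntermediateField.fixedField (Hs hζ (2 ^ s))) = p ^ i * m := by
  have hfr : Module.finrank ℚ (IntermediateField.fixedField (Hs hζ (2 ^ s))) = p ^ i * m := by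
    rw [IntermediateField.finrank_eq_fixingSubgroup_index, IntermediateField.fixingSubgroup_fixedField,
      index_Hs hp2 hm hζ]
  refine ⟨⟨?_, i, ?_⟩, hfr⟩
  · have hp : p.Prime := Fact.out
    have hgal : IsGalois ℚ (IntermediateField.fixedField (Hs hζ (2 ^ s))) := by
      have h := IsGalois.of_fixedField_normal_subgroup (Hs hζ (2 ^ s))
      convert h
      exact Subsingleton.elim _ _
    refine isTR ?_
    rw [hfr]
    exact (hp.odd_of_ne_two hp2).pow.mul ho
  · have hle : IntermediateField.fixedField (Hs hζ (2 ^ s)) ≤ IntermediateField.adjoin ℚ {ζ} := by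
      have h1 : (IntermediateField.adjoin ℚ {ζ}).fixingSubgroup ≤ Hs hζ (2 ^ s) := by
        intro g hg
        rw [mem_Hs_iff]
        have h2 : g ζ = ζ := by
          rw [IntermediateField.mem_fixingSubgroup_iff] at hg
          exact hg ζ (IntermediateField.mem_adjoin_simple_self ℚ ζ)
        have h3 : ∀ k : ℕ, (g ^ k) ζ = ζ := by
          intro k
          induction k with
          | zero => rfl
          | succ k ih => rw [pow_succ, AlgEquiv.mul_apply, h2, ih]
        exact h3 _
      calc IntermediateField.fixedField (Hs hζ (2 ^ s)) ≤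
          IntermediateField.fixedField (IntermediateField.adjoin ℚ {ζ}).fixingSubgroup :=
            IntermediateField.fixedField_le h1
        _ = IntermediateField.adjoin ℚ {ζ} := IsGalois.fixedField_fixingSubgroup _
    have hcyc : IsCyclotomicExtension {p ^ (i + 1)} ℚ (IntermediateField.adjoin ℚ {ζ}) :=
      hζ.intermediateField_adjoin_isCyclotomicExtension ℚ
    let _ : Algebra ℚ (CyclotomicField (p ^ (i + 1)) ℚ) := CyclotomicField.algebra _ _
    have hcyc2 : IsCyclotomicExtension {p ^ (i + 1)} ℚ (CyclotomicField (p ^ (i + 1)) ℚ) :=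
      CyclotomicField.isCyclotomicExtension (p ^ (i + 1)) ℚ
    exact ⟨((IsCyclotomicExtension.algEquiv {p ^ (i + 1)} ℚ (IntermediateField.adjoin ℚ {ζ})
      (CyclotomicField (p ^ (i + 1)) ℚ)).toAlgHom.comp (IntermediateField.inclusion hle)).toRingHom⟩

end H86KS
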