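import Pool.Agent.H86.KS.Df

/-!
ROW Fr.  PROOF.  `P := W.asIdeal`, `k := 𝓞 M ⧸ P` a finite field of characteristic `l`. `g • W = W` means `x ∈ P ↔ gO g⁻¹ x ∈ P` (`H38T1.smul_def`, `mem_mv`), so also `x ∈ P ↔ gO g x ∈ P`; so `gO g : 𝓞 M ≃+* 𝓞 M` induces a ring automorphism `σ` of `k`
(`Ideal.quotientEquiv` or `Ideal.Quotient.lift`). Every ring automorphism (even every ring endomorphism) of a finite field of characteristic `l` is `x ↦ x ^ (l ^ i)` for some `i`: it is an algebra automorphism over `ZMod l`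
(`FiniteField.bijective_frobeniusAlgEquivOfAlgebraic_pow` or: `FiniteField`, the group `Gal(k / ZMod l)` is generated by Frobenius; alternatively take a generator `θ` of `kˣ` (cyclic): `σ θ` is a root of the minimal polynomial of `θ` over `ZMod l`, ...).
`z : 𝓞 M` with `(z : M) = ζ` (a root of unity is integral; `IsPrimitiveRoot.toInteger`): `gO g z - z ^ (l ^ i) ∈ P`. Both are `r`-th roots of unity; `g ζ = ζ ^ a` for some `a` (`IsPrimitiveRoot.eq_pow_of_pow_eq_one`, `(g ζ) ^ r = 1`).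
If `ζ ^ a ≠ ζ ^ (l ^ i)`: write `y = z ^ a * (z ^ (l ^ i))⁻¹ = z ^ c` with `0 < c < r` (reduce exponents mod `r`), `1 - z ^ c ∈ P` (multiply by units), and `∏_{c=1}^{r-1} (1 - z ^ c) = r` (`IsPrimitiveRoot.prod_one_sub_pow_eq_order`) so `(r : 𝓞 M) ∈ P`;
with `(l : 𝓞 M) ∈ P` and `r.Coprime l` we get `1 ∈ P`: contradiction.
-/

set_option autoImplicit false

open NumberField IsDedekindDomain H38T1

namespace H86KS

theorem Fr_fin {k : Type*} [Field k] [Finite k] {l : ℕ} [Fact l.Prime] [CharP k l]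
    (σ : k →+* k) : ∃ i : ℕ, ∀ x, σ x = x ^ (l ^ i) := by
  let _ : Algebra (ZMod l) k := ZMod.algebra k l
  let f : k →ₐ[ZMod l] k :=
    { σ with
      commutes' := fun r => by
        have h := RingHom.ext_zmod (σ.comp (algebraMap (ZMod l) k)) (algebraMap (ZMod l) k)
        exact RingHom.congr_fun h r }
  obtain ⟨n, hn⟩ := (FiniteField.bijective_frobeniusAlgHom_pow (ZMod l) k).2 f
  refine ⟨n, fun x => ?_⟩
  have h1 := DFunLike.congr_fun hn x
  rw [AlgHom.coe_pow, FiniteField.coe_frobeniusAlgHom, pow_iterate, ZMod.card] at h1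
  exact h1.symm

theorem Fr_roots {R : Type*} [CommRing R] [IsDomain R] (P : Ideal R) {n l : ℕ} {z : R}
    (hz : IsPrimitiveRoot z (n + 1)) (hr : (n + 1).Coprime l) (hl : (l : R) ∈ P) (hP : P ≠ ⊤)
    {a b : ℕ} (h : z ^ a - z ^ b ∈ P) : z ^ a = z ^ b := by
  by_contra hne
  have hz1 : z ^ (n + 1) = 1 := hz.pow_eq_one
  obtain ⟨w, hw⟩ : ∃ w, w = z ^ (n * b) := ⟨_, rfl⟩
  have hwb : w * z ^ b = 1 := by
    rw [hw, ← pow_add]
    have : n * b + b = (n + 1) * b := by ring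
    rw [this, pow_mul, hz1, one_pow]
  have hmem : w * z ^ a - 1 ∈ P := by
    have e : w * z ^ a - 1 = w * (z ^ a - z ^ b) := by
      rw [mul_sub, hwb]
    rw [e]
    exact P.mul_mem_left _ h
  have hwa : (w * z ^ a) ^ (n + 1) = 1 := by
    rw [hw, ← pow_add, ← pow_mul, mul_comm, pow_mul, hz1, one_pow]
  obtain ⟨c, hc, hcz⟩ := hz.eq_pow_of_pow_eq_one hwa
  have hc0 : c ≠ 0 := by
    rintro rfl
    rw [pow_zero] at hcz
    apply hne
    calc z ^ a = (w * z ^ b) * z ^ a := by rw [hwb, one_mul]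
      _ = (w * z ^ a) * z ^ b := by ring
      _ = z ^ b := by rw [← hcz, one_mul]
  obtain ⟨c', rfl⟩ : ∃ c', c = c' + 1 := ⟨c - 1, by omega⟩
  have hprod := hz.prod_one_sub_pow_eq_order
  have hc' : c' ∈ Finset.range n := Finset.mem_range.2 (by omega)
  rw [← Finset.mul_prod_erase _ _ hc'] at hprod
  have h1 : ((n : R) + 1) ∈ P := by
    rw [← hprod]
    apply P.mul_mem_right
    have e : 1 - z ^ (c' + 1) = -(w * z ^ a - 1) := by
      rw [hcz]
      ring
    rw [e]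
    exact P.neg_mem hmem
  apply hP
  rw [Ideal.eq_top_iff_one]
  have hcop : IsCoprime ((n + 1 : ℕ) : ℤ) (l : ℤ) := Nat.isCoprime_iff_coprime.2 hr
  obtain ⟨u, v, huv⟩ := hcop
  have h2 : (1 : R) = (u : R) * ((n : R) + 1) + (v : R) * (l : R) := by
    have h3 := congrArg (fun t : ℤ => (t : R)) huv
    push_cast at h3
    exact h3.symm
  rw [h2]
  exact P.add_mem (P.mul_mem_left _ h1) (P.mul_mem_left _ hl)

theorem frob_pow {M : Type} [Field M] [NumberField M] (W : HeightOneSpectrum (𝓞 M))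
    (g : M ≃ₐ[ℚ] M) (hg : g • W = W) {l : ℕ} (hl : l.Prime) (hW : (l : 𝓞 M) ∈ W.asIdeal)
    {r : ℕ} (hr0 : r ≠ 0) (hr : r.Coprime l) {ζ : M} (hζ : IsPrimitiveRoot ζ r) :
    ∃ i : ℕ, g ζ = ζ ^ (l ^ i) := by
  have hr1 : NeZero r := ⟨hr0⟩
  have hlf : Fact l.Prime := ⟨hl⟩
  have hmem : ∀ x : 𝓞 M, x ∈ W.asIdeal → gO g x ∈ W.asIdeal := by
    intro x hx
    have h1 : gO g x ∈ (g • W).asIdeal := by
      rw [smul_def, mem_mv]
      have h2 : gO g⁻¹ (gO g x) = x := by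
        apply RingOfIntegers.ext
        rw [gO_coe, gO_coe]
        exact g.symm_apply_apply _
      rw [h2]
      exact hx
    rw [hg] at h1
    exact h1
  have hmax : W.asIdeal.IsMaximal := W.isMaximal
  have hfin : Finite (𝓞 M ⧸ W.asIdeal) := Ideal.finiteQuotientOfFreeOfNeBot _ W.ne_bot
  let _ : Field (𝓞 M ⧸ W.asIdeal) := Ideal.Quotient.field _
  have hch : CharP (𝓞 M ⧸ W.asIdeal) l := by
    have h1 : ((l : ℕ) : 𝓞 M ⧸ W.asIdeal) = 0 := by
      rw [← map_natCast (Ideal.Quotient.mk W.asIdeal)]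
      exact Ideal.Quotient.eq_zero_iff_mem.2 hW
    have h2 : CharP (𝓞 M ⧸ W.asIdeal) (ringChar (𝓞 M ⧸ W.asIdeal)) := ringChar.charP _
    have h3 : ringChar (𝓞 M ⧸ W.asIdeal) = l :=
      ((Nat.dvd_prime hl).1 (ringChar.dvd h1)).resolve_left CharP.ringChar_ne_one
    rw [h3] at h2
    exact h2
  obtain ⟨i, hi⟩ := Fr_fin (l := l)
    (Ideal.quotientMap W.asIdeal (gO g : 𝓞 M →+* 𝓞 M) (fun x hx => hmem x hx))
  refine ⟨i, ?_⟩
  have hz : IsPrimitiveRoot hζ.toInteger r := hζ.toInteger_isPrimitiveRoot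
  have h1 := hi (Ideal.Quotient.mk W.asIdeal hζ.toInteger)
  rw [Ideal.quotientMap_mk, ← map_pow, Ideal.Quotient.eq] at h1
  have h2 : (gO g hζ.toInteger) ^ r = 1 := by
    rw [← map_pow, hz.pow_eq_one, map_one]
  obtain ⟨a, -, ha⟩ := hz.eq_pow_of_pow_eq_one h2
  have h3 : hζ.toInteger ^ a - hζ.toInteger ^ (l ^ i) ∈ W.asIdeal := by
    rw [ha]
    exact h1
  obtain ⟨n, rfl⟩ : ∃ n, r = n + 1 := ⟨r - 1, by omega⟩
  have h4 := Fr_roots W.asIdeal hz hr hW hmax.ne_top h3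
  rw [ha] at h4
  have h5 := congrArg (fun x : 𝓞 M => (x : M)) h4
  exact h5

end H86KS
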