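import Mathlib

/-!
ROW Nt.  PROOF.  For `p ∈ S` put `a p := j + 1 - padicValNat p D ≥ 1` (`padicValNat p D < D ≤ j`, e.g. `p ^ v ∣ D`, `v < p ^ v ≤ D`). By the Chinese remainder theorem (`Nat.chineseRemainderOfFinset` for the moduli `p ^ (j + 2)`, pairwise coprime) there is `u` with
`u ≡ 1 + p ^ (a p) [MOD p ^ (j + 2)]` for all `p ∈ S`; we may take `u > 1` (add the product of the moduli; if `S` is empty take anything). `p ∣ u - 1`, `p ∤ u`: `u.Coprime p`. `padicValNat p (u - 1) = a p` because `a p < j + 2`.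
Lifting the exponent (`p` odd; `padicValNat.pow_sub_pow`, `Nat.emultiplicity_pow_sub_pow` or `Int.emultiplicity_pow_sub_pow`): `padicValNat p (u ^ e - 1) = a p + padicValNat p e` for `e ≠ 0`. `e = D`: `j + 1`. `e = D (p - 1)`: `a p + padicValNat p D + 0 = j + 1 < j + 2`.
-/

set_option autoImplicit false

namespace H86KS

theorem Nt_val {p u D j : ℕ} (hp : p.Prime) (h2 : p ≠ 2) (hD : D ≠ 0) (hj : D ≤ j)
    (hu : u ≡ 1 + p ^ (j + 1 - padicValNat p D) [MOD p ^ (j + 2)]) :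
    u.Coprime p ∧ u ^ D ≡ 1 [MOD p ^ (j + 1)] ∧ ¬ u ^ (D * (p - 1)) ≡ 1 [MOD p ^ (j + 2)] := by
  have hf : Fact p.Prime := ⟨hp⟩
  have hv : padicValNat p D < D := by
    have h1 : p ^ padicValNat p D ≤ D := Nat.le_of_dvd (Nat.pos_of_ne_zero hD) pow_padicValNat_dvd
    have h3 : padicValNat p D < p ^ padicValNat p D := Nat.lt_pow_self hp.one_lt
    omega
  set v := padicValNat p D with hvd
  obtain ⟨a, ha⟩ : ∃ a, a = j + 1 - v := ⟨_, rfl⟩
  rw [← ha] at hu
  have ha1 : 1 ≤ a := by omega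
  have ha2 : a + 1 ≤ j + 2 := by omega
  have hav : a + v = j + 1 := by omega
  have hpu : ¬ p ∣ u := by
    intro h
    have h1 : u ≡ 1 + p ^ a [MOD p] := hu.of_dvd (dvd_pow_self p (by omega))
    have h3 : p ∣ 1 + p ^ a := (Nat.ModEq.dvd_iff h1 dvd_rfl).1 h
    have h4 : p ∣ 1 := (Nat.dvd_add_left (dvd_pow_self p (by omega))).1 h3
    exact hp.one_lt.ne' (Nat.dvd_one.1 h4)
  have hu0 : u ≠ 0 := fun h => hpu (h ▸ dvd_zero p)
  have hle : 1 ≤ u := Nat.pos_of_ne_zero hu0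
  have h3 : u - 1 ≡ p ^ a [MOD p ^ (j + 2)] := by
    have h1 : (u - 1) + 1 ≡ p ^ a + 1 [MOD p ^ (j + 2)] := by
      rw [Nat.sub_add_cancel hle, add_comm (p ^ a)]
      exact hu
    exact Nat.ModEq.add_right_cancel' 1 h1
  have d1 : p ^ a ∣ u - 1 :=
    (Nat.ModEq.dvd_iff (h3.of_dvd (pow_dvd_pow p (by omega : a ≤ j + 2))) dvd_rfl).2 dvd_rfl
  have d2 : ¬ p ^ (a + 1) ∣ u - 1 := by
    intro h
    have h4 := (Nat.ModEq.dvd_iff (h3.of_dvd (pow_dvd_pow p ha2)) dvd_rfl).1 h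
    have := (Nat.pow_dvd_pow_iff_le_right hp.one_lt).1 h4
    omega
  have hu2 : 1 < u := by
    rcases Nat.lt_or_ge 1 u with h | h
    · exact h
    · exfalso
      apply d2
      have : u - 1 = 0 := by omega
      rw [this]
      exact dvd_zero _
  have hne : u - 1 ≠ 0 := by omega
  have hval : padicValNat p (u - 1) = a := by
    apply le_antisymm
    · by_contra hcon
      push Not at hcon
      exact d2 ((padicValNat_dvd_iff_le hne).2 hcon)
    · exact (padicValNat_dvd_iff_le hne).1 d1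
  have hdu : p ∣ u - 1 := (dvd_pow_self p (by omega)).trans d1
  have hlte : ∀ e : ℕ, e ≠ 0 → padicValNat p (u ^ e - 1) = a + padicValNat p e := by
    intro e he
    have h := padicValNat.pow_sub_pow (p := p) (hp.odd_of_ne_two h2) (x := u) (y := 1) hu2 hdu hpu he
    rw [one_pow] at h
    rw [h, hval]
  have hpos : ∀ e : ℕ, e ≠ 0 → 1 < u ^ e := fun e he => Nat.one_lt_pow he hu2
  refine ⟨(Nat.Coprime.symm ((Nat.Prime.coprime_iff_not_dvd hp).2 hpu)), ?_, ?_⟩
  · have h5 := hpos D hD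
    have h4 : p ^ (j + 1) ∣ u ^ D - 1 := by
      rw [padicValNat_dvd_iff_le (by omega), hlte D hD]
      omega
    exact ((Nat.modEq_iff_dvd' h5.le).2 h4).symm
  · intro h
    have hp1 : p - 1 ≠ 0 := by have := hp.one_lt; omega
    have h5 := hpos (D * (p - 1)) (mul_ne_zero hD hp1)
    have h4 := (Nat.modEq_iff_dvd' h5.le).1 h.symm
    rw [padicValNat_dvd_iff_le (by omega), hlte _ (mul_ne_zero hD hp1), padicValNat.mul hD hp1] at h4
    have h6 : padicValNat p (p - 1) = 0 := by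
      apply padicValNat.eq_zero_of_not_dvd
      intro hd
      have := Nat.le_of_dvd (Nat.pos_of_ne_zero hp1) hd
      omega
    omega

theorem exists_u (S : Finset ℕ) (hS : ∀ p ∈ S, p.Prime ∧ p ≠ 2) {D j : ℕ} (hD : D ≠ 0)
    (hj : D ≤ j) :
    ∃ u : ℕ, (∀ p ∈ S, u.Coprime p) ∧ ∀ p ∈ S, u ^ D ≡ 1 [MOD p ^ (j + 1)] ∧
      ¬ u ^ (D * (p - 1)) ≡ 1 [MOD p ^ (j + 2)] := by
  obtain ⟨u, hu⟩ := Nat.chineseRemainderOfFinset
    (fun p => 1 + p ^ (j + 1 - padicValNat p D)) (fun p => p ^ (j + 2)) S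
    (fun p hp => pow_ne_zero _ (hS p hp).1.ne_zero) (by
      intro p hp q hq hne
      exact Nat.Coprime.pow _ _ ((Nat.coprime_primes (hS p hp).1 (hS q hq).1).2 hne))
  have h := fun p hp => Nt_val (hS p hp).1 (hS p hp).2 hD hj (hu p hp)
  exact ⟨u, fun p hp => (h p hp).1, fun p hp => (h p hp).2⟩

end H86KS
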