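import Pool.Agent.H86.KS.Ga
import Pool.Agent.H86.KS.Nt

/-!
ROW Ta.  PROOF.  `D := finrank ℚ F`, `n := ∏ q ∈ S, q ^ (j + 2)`. Take `u` from `exists_u` and `g` from `exists_gal` (`u.Coprime n`: `Nat.Coprime.prod_right`, `Nat.Coprime.pow_right`): `g ζ = ζ ^ u`. `τ := g ^ D`.
(a) `τ` is trivial on `F`: `F` is normal over `ℚ`, so Galois, `Nat.card (F ≃ₐ[ℚ] F) = D` (`IsGalois.card_aut_eq_finrank`) and `(AlgEquiv.restrictNormalHom F g) ^ D = 1` (`pow_card_eq_one'`); `AlgEquiv.restrictNormal_commutes`.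
(b) `(g ^ k) ζ = ζ ^ (u ^ k)` by induction (`map_pow`, `pow_mul`), so `(g ^ k) (ζ ^ c) = ζ ^ (c * u ^ k)`. For `p ∈ S`: `τ (ζ ^ (n / p ^ (j + 1))) = ζ ^ ((n / p ^ (j + 1)) * u ^ D)` and `u ^ D ≡ 1 mod p ^ (j + 1)`,
so the exponent is `≡ n / p ^ (j + 1) mod n` (`p ^ (j+1) ∣ n`): equal (`hζ.pow_eq_one`; `pow_eq_pow_of_modEq` or `hζ.eq_pow..`). (c) `(τ ^ (p - 1)) (ζ ^ (n / p ^ (j + 2))) = ζ ^ ((n / p ^ (j + 2)) * u ^ (D (p - 1)))`;
equality with `ζ ^ (n / p ^ (j + 2))` would give `(n / p ^ (j + 2)) * u ^ (D (p-1)) ≡ n / p ^ (j + 2) mod n` (`IsPrimitiveRoot.pow_eq_pow_iff_modEq` / `orderOf`), so `u ^ (D (p - 1)) ≡ 1 mod p ^ (j + 2)` (`Nat.ModEq.mul_left_cancel'`): contradiction.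
-/

set_option autoImplicit false

open NumberField IsDedekindDomain H38T1

namespace H86KS

theorem Ta_iff {M : Type} [Field M] {n : ℕ} (hn : n ≠ 0) {ζ : M} (hζ : IsPrimitiveRoot ζ n)
    (a b : ℕ) : ζ ^ a = ζ ^ b ↔ a ≡ b [MOD n] := by
  rw [pow_eq_pow_mod a hζ.pow_eq_one, pow_eq_pow_mod b hζ.pow_eq_one]
  constructor
  · intro h
    exact hζ.pow_inj (Nat.mod_lt _ (Nat.pos_of_ne_zero hn)) (Nat.mod_lt _ (Nat.pos_of_ne_zero hn)) h
  · intro h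
    exact congrArg (fun t => ζ ^ t) h

theorem Ta_pow {M : Type} [Field M] [NumberField M] (g : M ≃ₐ[ℚ] M) {ζ : M} {u : ℕ}
    (hg : g ζ = ζ ^ u) (k : ℕ) : ∀ c : ℕ, (g ^ k) (ζ ^ c) = ζ ^ (c * u ^ k) := by
  induction k with
  | zero =>
    intro c
    rw [pow_zero, pow_zero, mul_one]
    rfl
  | succ k ih =>
    intro c
    rw [pow_succ, AlgEquiv.mul_apply, map_pow, hg, ← pow_mul, ih]
    congr 1
    ring

theorem exists_tau {M : Type} [Field M] [NumberField M] [IsGalois ℚ M]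
    (F : IntermediateField ℚ M) [Normal ℚ F] (S : Finset ℕ) (hS : ∀ p ∈ S, p.Prime ∧ p ≠ 2)
    {j : ℕ} (hj : Module.finrank ℚ F ≤ j) {ζ : M}
    (hζ : IsPrimitiveRoot ζ (∏ q ∈ S, q ^ (j + 2))) :
    ∃ τ : M ≃ₐ[ℚ] M, (∀ x ∈ F, τ x = x) ∧ ∀ p ∈ S,
      τ (ζ ^ ((∏ q ∈ S, q ^ (j + 2)) / p ^ (j + 1))) = ζ ^ ((∏ q ∈ S, q ^ (j + 2)) / p ^ (j + 1)) ∧
      (τ ^ (p - 1)) (ζ ^ ((∏ q ∈ S, q ^ (j + 2)) / p ^ (j + 2))) ≠
        ζ ^ ((∏ q ∈ S, q ^ (j + 2)) / p ^ (j + 2)) := by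
  obtain ⟨u, hu1, hu2⟩ := exists_u S hS (D := Module.finrank ℚ F) Module.finrank_pos.ne' hj
  obtain ⟨n, hn⟩ : ∃ n, n = ∏ q ∈ S, q ^ (j + 2) := ⟨_, rfl⟩
  have hcop : u.Coprime n := by
    rw [hn]
    exact Nat.Coprime.prod_right (fun q hq => Nat.Coprime.pow_right _ (hu1 q hq))
  have hn0 : n ≠ 0 := by
    rw [hn]
    exact Finset.prod_ne_zero_iff.2 (fun q hq => pow_ne_zero _ (hS q hq).1.ne_zero)
  rw [← hn] at hζ
  rw [← hn]
  obtain ⟨g, hg⟩ := exists_gal hn0 hζ hcop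
  have hgal : IsGalois ℚ F := { }
  refine ⟨g ^ Module.finrank ℚ F, ?_, ?_⟩
  · intro x hx
    have h1 : (AlgEquiv.restrictNormalHom F g) ^ (Module.finrank ℚ F) = 1 := by
      rw [← IsGalois.card_aut_eq_finrank ℚ F]
      exact pow_card_eq_one'
    rw [← map_pow] at h1
    have h2 := AlgEquiv.restrictNormal_commutes (g ^ Module.finrank ℚ F) F ⟨x, hx⟩
    have h3 : (g ^ Module.finrank ℚ F).restrictNormal F = 1 := h1
    rw [h3] at h2
    exact h2.symm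
  · intro p hp
    obtain ⟨m, hm⟩ : p ^ (j + 2) ∣ n := by
      rw [hn]
      exact Finset.dvd_prod_of_mem (fun q => q ^ (j + 2)) hp
    have hp0 : 0 < p := (hS p hp).1.pos
    have hm0 : m ≠ 0 := by
      intro h
      rw [h, mul_zero] at hm
      exact hn0 hm
    have e1 : n / p ^ (j + 1) = p * m := by
      rw [hm]
      refine Nat.div_eq_of_eq_mul_right (pow_pos hp0 _) ?_
      ring
    have e2 : n / p ^ (j + 2) = m := by
      rw [hm]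
      exact Nat.mul_div_cancel_left _ (pow_pos hp0 _)
    rw [e1, e2]
    constructor
    · rw [Ta_pow g hg, Ta_iff hn0 hζ]
      have h1 := (hu2 p hp).1.mul_left' (p * m)
      rw [mul_one] at h1
      have e3 : p * m * p ^ (j + 1) = n := by
        rw [hm]
        ring
      rw [e3] at h1
      exact h1
    · intro h
      rw [← pow_mul, Ta_pow g hg, Ta_iff hn0 hζ] at h
      apply (hu2 p hp).2
      have e4 : n = m * p ^ (j + 2) := by
        rw [hm]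
        ring
      rw [e4] at h
      refine Nat.ModEq.mul_left_cancel' hm0 ?_
      rw [mul_one]
      exact h

end H86KS
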