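import Pool.Agent.H86.KS.Df

/-!
ROW Tr.
-/

set_option autoImplicit false

open NumberField IsDedekindDomain H38T1

namespace H86KS

theorem exists_over {M : Type} [Field M] [NumberField M] [IsGalois ℚ M]
    (K : IntermediateField ℚ M) [Normal ℚ K] (τ : M ≃ₐ[ℚ] M) (w : HeightOneSpectrum (𝓞 K))
    (hw : (τ.restrictNormal K) • w = w) {l : ℕ} (hl : (l : 𝓞 K) ∈ w.asIdeal) :
    ∃ (W : HeightOneSpectrum (𝓞 M)) (h : M ≃ₐ[ℚ] M), (∀ x ∈ K, h x = x) ∧ (h * τ) • W = W ∧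
      (l : 𝓞 M) ∈ W.asIdeal := by
  have : IsGalois K M := IsGalois.tower_top_of_isGalois ℚ K M
  have := w.isMaximal
  obtain ⟨P, hP, hPw⟩ := Ideal.exists_maximal_ideal_liesOver_of_isIntegral (S := 𝓞 M) w.asIdeal
  have := hP
  have hPp : P.IsPrime := hP.isPrime
  have hunder : P.under (𝓞 K) = w.asIdeal := hPw.over.symm
  have hPb : P ≠ ⊥ := by
    intro h0
    apply w.ne_bot
    rw [← hunder, h0]
    rw [Ideal.under_def, ← RingHom.ker_eq_comap_bot, RingHom.ker_eq_bot_iff_eq_zero]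
    intro x hx
    exact (map_eq_zero_iff _ (FaithfulSMul.algebraMap_injective (𝓞 K) (𝓞 M))).1 hx
  obtain ⟨W, hW⟩ : ∃ W : HeightOneSpectrum (𝓞 M), W.asIdeal = P := ⟨⟨P, hPp, hPb⟩, rfl⟩
  have hmemw : ∀ x : 𝓞 K, algebraMap (𝓞 K) (𝓞 M) x ∈ W.asIdeal ↔ x ∈ w.asIdeal := by
    intro x
    rw [← hunder, hW, Ideal.under_def, Ideal.mem_comap]
  -- the prime τ W
  have h1p : (τ • W).asIdeal.IsPrime := (τ • W).isPrime
  have h2p : W.asIdeal.IsPrime := W.isPrime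
  have hres : ∀ x : 𝓞 K, gO τ⁻¹ (algebraMap (𝓞 K) (𝓞 M) x) =
      algebraMap (𝓞 K) (𝓞 M) (gO (τ.restrictNormal K)⁻¹ x) := by
    intro x
    apply RingOfIntegers.ext
    rw [gO_coe]
    have e1 : ((algebraMap (𝓞 K) (𝓞 M) x : 𝓞 M) : M) = algebraMap K M (x : K) := rfl
    have e2 : ((algebraMap (𝓞 K) (𝓞 M) (gO (τ.restrictNormal K)⁻¹ x) : 𝓞 M) : M) =
      algebraMap K M ((gO (τ.restrictNormal K)⁻¹ x : 𝓞 K) : K) := rfl
    rw [e1, e2, gO_coe]
    have e3 : τ (algebraMap K M ((τ.restrictNormal K)⁻¹ (x : K))) = algebraMap K M (x : K) := by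
      rw [← AlgEquiv.restrictNormal_commutes]
      congr 1
      exact (τ.restrictNormal K).apply_symm_apply _
    rw [← e3]
    exact τ.symm_apply_apply _
  have hu : (τ • W).asIdeal.under (𝓞 K) = W.asIdeal.under (𝓞 K) := by
    ext x
    rw [Ideal.under_def, Ideal.under_def, Ideal.mem_comap, Ideal.mem_comap, smul_def, mem_mv, hres,
      hmemw, hmemw, ← mem_mv, ← smul_def, hw]
  obtain ⟨g, hg⟩ := Algebra.IsInvariant.exists_smul_of_under_eq (𝓞 K) (𝓞 M) (M ≃ₐ[K] M)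
    (τ • W).asIdeal W.asIdeal hu
  refine ⟨W, g.restrictScalars ℚ, ?_, ?_, ?_⟩
  · intro x hx
    exact g.commutes ⟨x, hx⟩
  · rw [mul_smul]
    apply HeightOneSpectrum.ext
    rw [smul_def]
    ext x
    rw [mem_mv]
    conv_rhs => rw [hg, Ideal.mem_pointwise_smul_iff_inv_smul_mem]
    have e1 : gO (g.restrictScalars ℚ)⁻¹ x = g⁻¹ • x := by
      apply RingOfIntegers.ext
      rw [gO_coe]
      rfl
    rw [e1]
  · have h3 := (hmemw (l : 𝓞 K)).2 hl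
    rwa [map_natCast] at h3

end H86KS
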