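import Pool.Agent.H86.KS.M1
import Pool.Agent.H86.KS.Cy
import Pool.Agent.H86.KS.Ta
import Pool.Agent.H86.KS.Fr
import Pool.Agent.H86.KS.Tr

/-!
Block K of T1 (helper86): assembly.
-/

set_option autoImplicit false
set_option linter.style.haveILetI false
open scoped Classical

open NumberField IsDedekindDomain H38T1

namespace H86KS

section grp

variable {G : Type*} [Group G]

lemma odd_index_inf {A B : Subgroup G} (hn : A.Normal) (hA : Odd A.index) (hB : Odd B.index) :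
    Odd (A ⊓ B).index := by
  have h1 : A.relIndex B * B.index = (A ⊓ B).index := by
    rw [← Subgroup.inf_relIndex_right, Subgroup.relIndex_mul_index inf_le_right]
  rw [← h1]
  have h2 : A.relIndex B ∣ A.index := Subgroup.relIndex_dvd_index_of_normal A B
  exact (Odd.of_dvd_nat hA h2).mul hB

lemma finset_inf_odd {ι : Type*} (S : Finset ι) (f : ι → Subgroup G)
    (hf : ∀ i ∈ S, (f i).Normal ∧ Odd (f i).index) : (S.inf f).Normal ∧ Odd (S.inf f).index := by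
  induction S using Finset.induction_on with
  | empty =>
    rw [Finset.inf_empty]
    exact ⟨inferInstance, by rw [Subgroup.index_top]; exact odd_one⟩
  | insert a s ha ih =>
    rw [Finset.inf_insert]
    obtain ⟨h1, h2⟩ := ih (fun i hi => hf i (Finset.mem_insert_of_mem hi))
    obtain ⟨h3, h4⟩ := hf a (Finset.mem_insert_self _ _)
    exact ⟨Subgroup.normal_inf_normal _ _, odd_index_inf h3 h4 h2⟩

lemma mem_finset_inf' {ι : Type*} {S : Finset ι} {f : ι → Subgroup G} {g : G} :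
    g ∈ S.inf f ↔ ∀ i ∈ S, g ∈ f i := by
  induction S using Finset.induction_on with
  | empty => simp
  | insert a s ha ih =>
    rw [Finset.inf_insert, Subgroup.mem_inf, ih]
    simp

end grp

variable {M : Type} [Field M] [NumberField M] [IsGalois ℚ M]

/-- The groups of one prime. -/
lemma exists_H {p : ℕ} (hp : p.Prime) (hp2 : p ≠ 2) {n i : ℕ} (hn : n ≠ 0)
    (hd : p ^ (i + 1) ∣ n) {ζ : M} (hζ : IsPrimitiveRoot ζ n) :
    ∃ H : Subgroup (M ≃ₐ[ℚ] M), H.Normal ∧ Odd H.index ∧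
      (∃ m s : ℕ, Odd m ∧ p - 1 = m * 2 ^ s ∧
        (∀ g, g ∈ H ↔ (g ^ (2 ^ s)) (ζ ^ (n / p ^ (i + 1))) = ζ ^ (n / p ^ (i + 1))) ∧
        H5SW.IsR p (IntermediateField.fixedField H) ∧
        Module.finrank ℚ (IntermediateField.fixedField H) = p ^ i * m) := by
  haveI : Fact p.Prime := ⟨hp⟩
  have hp1 : p - 1 ≠ 0 := by have := hp.two_le; omega
  obtain ⟨s, m, hm, hms⟩ := Nat.exists_eq_two_pow_mul_odd hp1
  have hms' : p - 1 = m * 2 ^ s := by rw [hms, mul_comm]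
  have hζp : IsPrimitiveRoot (ζ ^ (n / p ^ (i + 1))) (p ^ (i + 1)) :=
    hζ.pow (Nat.pos_of_ne_zero hn) (Nat.div_mul_cancel hd).symm
  refine ⟨Hs hζp (2 ^ s), inferInstance, ?_, m, s, hm, hms', fun g => mem_Hs_iff,
    isR_Hs hp2 hms' hm hζp⟩
  rw [index_Hs hp2 hms' hζp]
  exact ((hp.odd_of_ne_two hp2).pow).mul hm

/-- The contradiction at one prime. -/
lemma no_fix {p : ℕ} (hp : p.Prime) {m s n j : ℕ} (hn : n ≠ 0)
    (hms : p - 1 = m * 2 ^ s) (hd : p ^ (j + 2) ∣ n) {ζ : M} (hζ : IsPrimitiveRoot ζ n)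
    {τ h : M ≃ₐ[ℚ] M} (hτ : (τ ^ (p - 1)) (ζ ^ (n / p ^ (j + 2))) ≠ ζ ^ (n / p ^ (j + 2)))
    (hh : (h ^ (2 ^ s)) (ζ ^ (n / p ^ (j + 2))) = ζ ^ (n / p ^ (j + 2)))
    (W : HeightOneSpectrum (𝓞 M)) {l : ℕ} (hl : l.Prime) (hlp : p ^ (j + 2) ∣ l ^ (p - 1) - 1)
    (hW : (l : 𝓞 M) ∈ W.asIdeal) (hfix : (h * τ) • W = W) : False := by
  haveI : Fact p.Prime := ⟨hp⟩
  have hζp : IsPrimitiveRoot (ζ ^ (n / p ^ (j + 2))) (p ^ (j + 2)) :=
    hζ.pow (Nat.pos_of_ne_zero hn) (Nat.div_mul_cancel hd).symm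
  set z := ζ ^ (n / p ^ (j + 2)) with hz
  have hp1 : 1 ≤ p - 1 := by have := hp.two_le; omega
  have hl1 : 1 ≤ l ^ (p - 1) := Nat.one_le_pow _ _ hl.pos
  have hne : p ≠ l := by
    rintro rfl
    have h1 : p ∣ p ^ (p - 1) - 1 := (dvd_pow_self p (by omega : j + 2 ≠ 0)).trans hlp
    have h2 : p ∣ p ^ (p - 1) := dvd_pow_self p (by omega)
    have h3 : p ∣ 1 := by
      have := Nat.dvd_sub h2 h1
      rwa [Nat.sub_sub_self hl1] at this
    exact hp.one_lt.ne' (Nat.dvd_one.1 h3)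
  have hcop : (p ^ (j + 2)).Coprime l :=
    Nat.Coprime.pow_left _ ((Nat.coprime_primes hp hl).2 hne)
  obtain ⟨i, hi⟩ := frob_pow W (h * τ) hfix hl hW (pow_ne_zero _ hp.ne_zero) hcop hζp
  have hpow : ∀ k : ℕ, ((h * τ) ^ k) z = z ^ (l ^ (i * k)) := by
    intro k
    induction k with
    | zero => rw [pow_zero, mul_zero, pow_zero, pow_one]; rfl
    | succ k ih =>
      rw [pow_succ', AlgEquiv.mul_apply, ih, map_pow, hi, ← pow_mul, ← pow_add]
      congr 2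
      ring
  have h1 : ((h * τ) ^ (p - 1)) z = z := by
    rw [hpow]
    have h2 : l ^ (i * (p - 1)) ≡ 1 [MOD p ^ (j + 2)] := by
      have h3 : l ^ (p - 1) ≡ 1 [MOD p ^ (j + 2)] := ((Nat.modEq_iff_dvd' hl1).2 hlp).symm
      have h4 := h3.pow i
      rwa [one_pow, ← pow_mul, mul_comm] at h4
    have h5 : z ^ (l ^ (i * (p - 1))) = z ^ 1 := by
      have h6 := hζp.pow_eq_one
      have h7 : ∀ a : ℕ, z ^ a = z ^ (a % (p ^ (j + 2))) := by
        intro a
        conv_lhs => rw [← Nat.div_add_mod a (p ^ (j + 2)), pow_add, pow_mul, h6, one_pow, one_mul]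
      rw [h7, h7 1]
      rw [show l ^ (i * (p - 1)) % p ^ (j + 2) = 1 % p ^ (j + 2) from h2]
    rw [h5, pow_one]
  apply hτ
  have c1 : (hζp.autToPow ℚ (h * τ)) ^ (p - 1) = 1 := by
    rw [← map_pow, autToPow_eq_one]; exact h1
  have c2 : (hζp.autToPow ℚ h) ^ (p - 1) = 1 := by
    have c3 : (hζp.autToPow ℚ h) ^ (2 ^ s) = 1 := by
      rw [← map_pow, autToPow_eq_one]; exact hh
    rw [hms, mul_comm, pow_mul, c3, one_pow]
  rw [map_mul, mul_pow, c2, one_mul] at c1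
  have c4 : hζp.autToPow ℚ (τ ^ (p - 1)) = 1 := by rw [map_pow]; exact c1
  exact autToPow_eq_one.1 c4

theorem exists_KS (K₀ : Type) [Field K₀] [NumberField K₀] [IsGalois ℚ K₀]
    (h₀ : Odd (Module.finrank ℚ K₀)) (S : Finset ℕ) (hS : ∀ p ∈ S, p.Prime ∧ p ≠ 2) (j₀ : ℕ) :
    ∃ j : ℕ, j₀ ≤ j ∧ ∃ (K K' : Type) (_ : Field K) (_ : NumberField K) (_ : Field K')
      (_ : NumberField K') (_ : Algebra K K') (_ : IsGalois ℚ K) (_ : IsGalois ℚ K'),
      Odd (Module.finrank ℚ K') ∧ Nonempty (K₀ →+* K) ∧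
      (∀ p ∈ S, ∃ (Kp : Type) (_ : Field Kp) (_ : NumberField Kp),
        (H5SW.IsR p Kp ∧ ∃ m s : ℕ, Module.finrank ℚ Kp = p ^ j * m ∧ Odd m ∧
          p - 1 = m * 2 ^ s) ∧ Nonempty (Kp →+* K)) ∧
      ∃ t : K' ≃ₐ[K] K', ∀ p ∈ S, ∀ l : ℕ, l.Prime → p ^ (j + 2) ∣ l ^ (p - 1) - 1 →
        ∀ w : HeightOneSpectrum (𝓞 K'), (l : 𝓞 K') ∈ w.asIdeal →
          (t.restrictScalars ℚ) • w ≠ w := by
  obtain ⟨j, hj0, hj1⟩ : ∃ j, j₀ ≤ j ∧ Module.finrank ℚ K₀ ≤ j :=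
    ⟨max j₀ (Module.finrank ℚ K₀), le_max_left _ _, le_max_right _ _⟩
  refine ⟨j, hj0, ?_⟩
  set n : ℕ := ∏ q ∈ S, q ^ (j + 2) with hn
  have hn0 : n ≠ 0 := Finset.prod_ne_zero_iff.2 (fun q hq => pow_ne_zero _ (hS q hq).1.ne_zero)
  have hdvd : ∀ p ∈ S, p ^ (j + 2) ∣ n := fun p hp => Finset.dvd_prod_of_mem (fun q => q ^ (j + 2)) hp
  have hdvd1 : ∀ p ∈ S, p ^ (j + 1) ∣ n := fun p hp => (pow_dvd_pow p (by omega)).trans (hdvd p hp)
  obtain ⟨M, _, _, _, ζ, ⟨φ₀⟩, hζ⟩ := exists_M K₀ n hn0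
  let φ : K₀ →ₐ[ℚ] M := φ₀.toRatAlgHom
  let F : IntermediateField ℚ M := φ.fieldRange
  let eF : K₀ ≃ₐ[ℚ] F := AlgEquiv.ofInjectiveField φ
  haveI : IsGalois ℚ F := IsGalois.of_algEquiv eF
  haveI : Normal ℚ F := IsGalois.to_normal
  have hFr : Module.finrank ℚ F = Module.finrank ℚ K₀ := eF.symm.toLinearEquiv.finrank_eq
  obtain ⟨τ, hτF, hτ⟩ := exists_tau F S hS (by rw [hFr]; exact hj1) hζ
  -- the groups
  have hA : ∀ p : ℕ, ∃ H : Subgroup (M ≃ₐ[ℚ] M), p ∈ S → H.Normal ∧ Odd H.index ∧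
      (∃ m s : ℕ, Odd m ∧ p - 1 = m * 2 ^ s ∧
        (∀ g, g ∈ H ↔ (g ^ (2 ^ s)) (ζ ^ (n / p ^ (j + 1))) = ζ ^ (n / p ^ (j + 1))) ∧
        H5SW.IsR p (IntermediateField.fixedField H) ∧
        Module.finrank ℚ (IntermediateField.fixedField H) = p ^ j * m) := by
    intro p
    by_cases hp : p ∈ S
    · obtain ⟨H, hH⟩ := exists_H (hS p hp).1 (hS p hp).2 hn0 (hdvd1 p hp) hζ
      exact ⟨H, fun _ => hH⟩
    · exact ⟨⊤, fun h => absurd h hp⟩
  have hB : ∀ p : ℕ, ∃ H : Subgroup (M ≃ₐ[ℚ] M), p ∈ S → H.Normal ∧ Odd H.index ∧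
      (∃ m s : ℕ, Odd m ∧ p - 1 = m * 2 ^ s ∧
        (∀ g, g ∈ H ↔ (g ^ (2 ^ s)) (ζ ^ (n / p ^ (j + 2))) = ζ ^ (n / p ^ (j + 2)))) := by
    intro p
    by_cases hp : p ∈ S
    · obtain ⟨H, h1, h2, m, s, h3, h4, h5, -⟩ :=
        exists_H (i := j + 1) (hS p hp).1 (hS p hp).2 hn0 (hdvd p hp) hζ
      exact ⟨H, fun _ => ⟨h1, h2, m, s, h3, h4, h5⟩⟩
    · exact ⟨⊤, fun h => absurd h hp⟩
  choose HA hA using hA
  choose HB hB using hB
  have hBA : ∀ p ∈ S, HB p ≤ HA p := by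
    intro p hp g hg
    obtain ⟨_, _, m, s, h3, h4, h5, -⟩ := hA p hp
    obtain ⟨_, _, m', s', h3', h4', h5'⟩ := hB p hp
    have hss : s = s' := by
      have h6 : m * 2 ^ s = m' * 2 ^ s' := h4.symm.trans h4'
      have h7 : ∀ {a b c d : ℕ}, Odd a → Odd c → a * 2 ^ b = c * 2 ^ d → b ≤ d := by
        intro a b c d ha hc h
        by_contra hlt
        push Not at hlt
        obtain ⟨e, rfl⟩ := Nat.exists_eq_add_of_lt hlt
        have h8 : a * 2 ^ (e + 1) = c := by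
          have h9 : (a * 2 ^ (e + 1)) * 2 ^ d = c * 2 ^ d := by
            rw [← h]; ring
          exact Nat.eq_of_mul_eq_mul_right (by positivity) h9
        rw [← h8] at hc
        have : Even (a * 2 ^ (e + 1)) := by rw [pow_succ]; exact ⟨a * 2 ^ e, by ring⟩
        exact (Nat.not_even_iff_odd.2 hc) this
      exact le_antisymm (h7 h3 h3' h6) (h7 h3' h3 h6.symm)
    subst hss
    rw [h5]
    have h8 := (h5' g).1 hg
    have h9 : ζ ^ (n / p ^ (j + 1)) = (ζ ^ (n / p ^ (j + 2))) ^ p := by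
      rw [← pow_mul]
      congr 1
      obtain ⟨c, hc⟩ := hdvd p hp
      have hp0 : 0 < p := (hS p hp).1.pos
      rw [hc, Nat.mul_div_cancel_left _ (by positivity)]
      have : p ^ (j + 2) * c = p ^ (j + 1) * (c * p) := by ring
      rw [this, Nat.mul_div_cancel_left _ (by positivity)]
    rw [h9, map_pow, h8]
  let N : Subgroup (M ≃ₐ[ℚ] M) := F.fixingSubgroup ⊓ S.inf HA
  let N' : Subgroup (M ≃ₐ[ℚ] M) := F.fixingSubgroup ⊓ S.inf HB
  have hFn : F.fixingSubgroup.Normal := by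
    have h1 : @Normal ℚ F _ _ F.algebra' := ‹Normal ℚ F›
    have h2 := @IntermediateField.restrictNormalHom_ker ℚ M _ _ _ F h1
    rw [← h2]
    exact MonoidHom.normal_ker _
  have hFi : Odd F.fixingSubgroup.index := by
    rw [← IntermediateField.finrank_eq_fixingSubgroup_index, hFr]
    exact h₀
  obtain ⟨hA1, hA2⟩ := finset_inf_odd S HA (fun p hp => ⟨(hA p hp).1, (hA p hp).2.1⟩)
  obtain ⟨hB1, hB2⟩ := finset_inf_odd S HB (fun p hp => ⟨(hB p hp).1, (hB p hp).2.1⟩)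
  haveI hNn : N.Normal := Subgroup.normal_inf_normal _ _
  haveI hNn' : N'.Normal := Subgroup.normal_inf_normal _ _
  have hNi' : Odd N'.index := odd_index_inf hFn hFi hB2
  have hNN : N' ≤ N := inf_le_inf le_rfl (Finset.inf_mono_fun hBA)
  let K : IntermediateField ℚ M := IntermediateField.fixedField N
  let K' : IntermediateField ℚ M := IntermediateField.fixedField N'
  have hKK : K ≤ K' := by
    intro x hx g
    exact hx ⟨g.1, hNN g.2⟩
  have hfixK : K.fixingSubgroup = N := IntermediateField.fixingSubgroup_fixedField N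
  have hfixK' : K'.fixingSubgroup = N' := IntermediateField.fixingSubgroup_fixedField N'
  letI algKK : Algebra K K' := (IntermediateField.inclusion hKK).toRingHom.toAlgebra
  haveI gK : IsGalois ℚ K := IsGalois.of_fixedField_normal_subgroup N
  haveI gK' : IsGalois ℚ K' := IsGalois.of_fixedField_normal_subgroup N'
  have hdeg : Odd (Module.finrank ℚ K') := by
    rw [IntermediateField.finrank_eq_fixingSubgroup_index, hfixK']
    exact hNi'
  have hτN : τ ∈ N := by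
    rw [Subgroup.mem_inf]
    constructor
    · exact fun x => hτF x.1 x.2
    · rw [mem_finset_inf']
      intro p hp
      obtain ⟨_, _, m, s, h3, h4, h5, -⟩ := hA p hp
      rw [h5]
      have h6 := (hτ p hp).1
      have h7 : ∀ k : ℕ, (τ ^ k) (ζ ^ (n / p ^ (j + 1))) = ζ ^ (n / p ^ (j + 1)) := by
        intro k
        induction k with
        | zero => rfl
        | succ k ih => rw [pow_succ', AlgEquiv.mul_apply, ih, h6]
      exact h7 _
  have hτK : ∀ x : K, τ (x : M) = x := by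
    intro x
    exact x.2 ⟨τ, hτN⟩
  let t₀ : K' ≃ₐ[ℚ] K' := τ.restrictNormal K'
  have ht₀ : ∀ x : K', ((t₀ x : K') : M) = τ x := fun x =>
    AlgEquiv.restrictNormal_commutes τ K' x
  let t : K' ≃ₐ[K] K' := AlgEquiv.ofRingEquiv (f := t₀.toRingEquiv) (by
    intro x
    apply Subtype.ext
    change ((t₀ (algebraMap K K' x) : K') : M) = _
    rw [ht₀]
    exact hτK x)
  refine ⟨K, K', inferInstance, inferInstance, inferInstance, inferInstance, algKK, gK, gK',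
    hdeg, ?_, ?_, t, ?_⟩
  · have h1 : F ≤ K := by
      rw [IntermediateField.le_iff_le]
      exact inf_le_left
    exact ⟨((IntermediateField.inclusion h1).comp eF.toAlgHom).toRingHom⟩
  · intro p hp
    obtain ⟨_, _, m, s, h3, h4, h5, h6, h7⟩ := hA p hp
    have h1 : IntermediateField.fixedField (HA p) ≤ K := by
      intro x hx g
      exact hx ⟨g.1, (mem_finset_inf'.1 g.2.2) p hp⟩
    exact ⟨IntermediateField.fixedField (HA p), inferInstance, inferInstance,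
      ⟨h6, m, s, h7, h3, h4⟩, ⟨(IntermediateField.inclusion h1).toRingHom⟩⟩
  · intro p hp l hl hlp w hw hfix
    have h1 : (τ.restrictNormal K') • w = w := hfix
    obtain ⟨W, h, hh, hW, hlW⟩ := exists_over K' τ w h1 hw
    obtain ⟨_, _, m, s, h3, h4, h5⟩ := hB p hp
    have h6 : h ∈ N' := by
      rw [← hfixK']
      exact fun x => hh x.1 x.2
    exact no_fix (hS p hp).1 hn0 h4 (hdvd p hp) hζ (hτ p hp).2
      ((h5 h).1 ((mem_finset_inf'.1 h6.2) p hp)) W hl hlp hlW hW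

end H86KS
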