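import Pool.Agent.H38.T1.Df
import Pool.Agent.H5.SW.L3

/-!
Block K of T1 (helper86): definitions.
-/

set_option autoImplicit false
set_option linter.style.haveILetI false

open NumberField IsDedekindDomain H38T1

namespace H86KS

variable {M : Type} [Field M] [NumberField M]

/-- Automorphisms whose `k`-th power is trivial on the root of unity. -/
noncomputable def Hs {n : ℕ} [NeZero n] {ζ : M} (hζ : IsPrimitiveRoot ζ n) (k : ℕ) :
    Subgroup (M ≃ₐ[ℚ] M) :=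
  ((powMonoidHom k).comp (hζ.autToPow ℚ)).ker

instance {n : ℕ} [NeZero n] {ζ : M} (hζ : IsPrimitiveRoot ζ n) (k : ℕ) : (Hs hζ k).Normal :=
  MonoidHom.normal_ker _

lemma mem_Hs {n : ℕ} [NeZero n] {ζ : M} {hζ : IsPrimitiveRoot ζ n} {k : ℕ} {g : M ≃ₐ[ℚ] M} :
    g ∈ Hs hζ k ↔ (hζ.autToPow ℚ g) ^ k = 1 := Iff.rfl

lemma autToPow_eq_one {n : ℕ} [NeZero n] {ζ : M} {hζ : IsPrimitiveRoot ζ n} {g : M ≃ₐ[ℚ] M} :
    hζ.autToPow ℚ g = 1 ↔ g ζ = ζ := by
  constructor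
  · intro h
    rw [← hζ.autToPow_spec ℚ g, h]
    rcases Nat.lt_or_ge 1 n with h1 | h1
    · haveI : Fact (1 < n) := ⟨h1⟩
      rw [Units.val_one, ZMod.val_one, pow_one]
    · have h2 : n = 1 := le_antisymm h1 (Nat.one_le_iff_ne_zero.2 (NeZero.ne n))
      subst h2
      have : ζ = 1 := by simpa using hζ.pow_eq_one
      rw [this, one_pow]
  · intro h
    rcases Nat.lt_or_ge 1 n with h1 | h1
    · haveI : Fact (1 < n) := ⟨h1⟩
      have h2 := hζ.autToPow_spec ℚ g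
      rw [h] at h2
      have h3 : ζ ^ ((hζ.autToPow ℚ g : (ZMod n)ˣ) : ZMod n).val = ζ ^ 1 := by rw [h2, pow_one]
      have h4 := hζ.pow_inj (ZMod.val_lt _) h1 h3
      ext
      rw [Units.val_one]
      apply ZMod.val_injective n
      rw [h4, ZMod.val_one]
    · have h2 : n = 1 := le_antisymm h1 (Nat.one_le_iff_ne_zero.2 (NeZero.ne n))
      subst h2
      exact Subsingleton.elim _ _

lemma mem_Hs_iff {n : ℕ} [NeZero n] {ζ : M} {hζ : IsPrimitiveRoot ζ n} {k : ℕ}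
    {g : M ≃ₐ[ℚ] M} : g ∈ Hs hζ k ↔ (g ^ k) ζ = ζ := by
  rw [mem_Hs, ← map_pow, autToPow_eq_one]

end H86KS
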