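import Pool.Agent.H86.KS.Df

/-!
ROW Ga.  PROOF.  `ζ ^ u` is a primitive `n`-th root of unity (`IsPrimitiveRoot.pow_of_coprime`), so both `ζ` and `ζ ^ u` have minimal polynomial `cyclotomic n ℚ` over `ℚ`
(`Polynomial.cyclotomic_eq_minpoly_rat`), and `IsGalois ℚ M` is normal: `Normal.exists_algEquiv_of_root` / `exists_algEquiv_of_root`
(Mathlib/FieldTheory/Normal/Basic.lean, near line 269; or `IsConjRoot`).
-/

set_option autoImplicit false

open NumberField IsDedekindDomain H38T1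

namespace H86KS

theorem exists_gal {M : Type} [Field M] [NumberField M] [IsGalois ℚ M] {n : ℕ} (hn : n ≠ 0)
    {ζ : M} (hζ : IsPrimitiveRoot ζ n) {u : ℕ} (hu : u.Coprime n) :
    ∃ g : M ≃ₐ[ℚ] M, g ζ = ζ ^ u := by
  have hpos : 0 < n := Nat.pos_of_ne_zero hn
  have hζu : IsPrimitiveRoot (ζ ^ u) n := hζ.pow_of_coprime u hu
  have h : IsConjRoot ℚ (ζ ^ u) ζ := by
    rw [isConjRoot_def, ← Polynomial.cyclotomic_eq_minpoly_rat hζ hpos,
      ← Polynomial.cyclotomic_eq_minpoly_rat hζu hpos]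
  exact isConjRoot_iff_exists_algEquiv.1 h

end H86KS
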