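import Pool.Agent.H86.KS.Ga

/-!
ROW Ix.  PROOF.  `Hs hζ (2 ^ s)` is the kernel of `f = (powMonoidHom (2 ^ s)).comp (hζ.autToPow ℚ)`, so its index is the cardinality of the range of `f` (`Subgroup.index_ker`). `hζ.autToPow ℚ` is surjective:
for a unit `u` of `ZMod n` take `g` from `exists_gal` with `u.val.val` (coprime to `n`: `ZMod.val_coe_unit_coprime`); `hζ.autToPow ℚ g = u` by `hζ.autToPow_spec` and `hζ.pow_inj` (values `< n`). So the range of `f` is the
range of the `2 ^ s`-power map of `(ZMod (p ^ (i + 1)))ˣ`, a cyclic group (`ZMod.isCyclic_units_of_prime_pow`, or similar; `p` odd) of order `p ^ i * (p - 1) = p ^ i * m * 2 ^ s` (`ZMod.card_units_eq_totient`,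
`Nat.totient_prime_pow`). In a finite cyclic group of order `N` with `d ∣ N` the kernel of the `d`-power map has `d` elements (`IsCyclic.card_powMonoidHom_ker`/`IsCyclic.card_pow_eq_one_eq...`, or `IsCyclic.index_powMonoidHom_ker` /
`IsCyclic.card_powMonoidHom_range : Nat.card (powMonoidHom d).range = Nat.card G / (Nat.card G).gcd d`), so the image has `N / d = p ^ i * m` elements.
-/

set_option autoImplicit false

open NumberField IsDedekindDomain H38T1

namespace H86KS

theorem index_Hs {M : Type} [Field M] [NumberField M] [IsGalois ℚ M] {p : ℕ} [Fact p.Prime]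
    (hp2 : p ≠ 2) {i m s : ℕ} (hm : p - 1 = m * 2 ^ s) {ζ : M}
    (hζ : IsPrimitiveRoot ζ (p ^ (i + 1))) :
    (Hs hζ (2 ^ s)).index = p ^ i * m := by
  have hp : p.Prime := Fact.out
  have hsurj : Function.Surjective (hζ.autToPow ℚ) := by
    intro u
    obtain ⟨g, hg⟩ := exists_gal (NeZero.ne (p ^ (i + 1))) hζ (ZMod.val_coe_unit_coprime u)
    refine ⟨g, ?_⟩
    have h1 := hζ.autToPow_spec ℚ g
    rw [hg] at h1
    have h2 := hζ.pow_inj (ZMod.val_lt _) (ZMod.val_lt _) h1
    exact Units.ext (ZMod.val_injective _ h2)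
  have hr : ((powMonoidHom (2 ^ s)).comp (hζ.autToPow ℚ)).range =
      (powMonoidHom (2 ^ s) : (ZMod (p ^ (i + 1)))ˣ →* (ZMod (p ^ (i + 1)))ˣ).range := by
    rw [MonoidHom.range_comp, MonoidHom.range_eq_top.2 hsurj, ← MonoidHom.range_eq_map]
  unfold Hs
  rw [Subgroup.index_ker, hr]
  have hc : IsCyclic (ZMod (p ^ (i + 1)))ˣ := ZMod.isCyclic_units_of_prime_pow p hp hp2 (i + 1)
  rw [IsCyclic.card_powMonoidHom_range, Nat.card_eq_fintype_card, ZMod.card_units_eq_totient,
    Nat.totient_prime_pow hp (Nat.succ_pos i), Nat.succ_sub_one, hm,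
    Nat.gcd_eq_right ⟨p ^ i * m, by ring⟩, ← mul_assoc, Nat.mul_div_cancel _ (by positivity)]

end H86KS
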