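import Pool.Agent.H86.KS.Df

/-!
ROW M1.  PROOF.  `Ω = AlgebraicClosure ℚ`. `φ : K₀ →ₐ[ℚ] Ω` (`IsAlgClosed.lift`), `ζ ∈ Ω` a primitive `n`-th root of unity
(`HasEnoughRootsOfUnity` or `IsAlgClosed` + `IsSepClosed`: e.g. `(Polynomial.cyclotomic n Ω)` has a root, `Polynomial.isRoot_cyclotomic_iff`).
`A = φ.fieldRange ⊔ adjoin ℚ {ζ}` is finite dimensional over `ℚ` (`IntermediateField.finiteDimensional_sup`, `adjoin.finiteDimensional` of an integral element).
`M = normalClosure ℚ A Ω` (`IntermediateField.normalClosure`): finite dimensional (`normalClosure.is_finiteDimensional`), normal over `ℚ` (`normalClosure.normal`), separable as `ℚ` is perfect,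
`A ≤ M` (`IntermediateField.le_normalClosure`). `NumberField` from `CharZero` and the finite dimension. (Alternative: the splitting field of the product of the minimal polynomial of a primitive element of `K₀` and `cyclotomic n ℚ`.)
-/

set_option autoImplicit false

open NumberField IsDedekindDomain H38T1

namespace H86KS

theorem exists_M (K₀ : Type) [Field K₀] [NumberField K₀] (n : ℕ) (hn : n ≠ 0) :
    ∃ (M : Type) (_ : Field M) (_ : NumberField M) (_ : IsGalois ℚ M) (ζ : M),
      Nonempty (K₀ →+* M) ∧ IsPrimitiveRoot ζ n := by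
  have : NeZero n := ⟨hn⟩
  have : NeZero ((n : ℕ) : K₀) := ⟨Nat.cast_ne_zero.mpr hn⟩
  have : NumberField (CyclotomicField n K₀) := IsCyclotomicExtension.numberField {n} K₀ _
  obtain ⟨ζ, hζ⟩ : ∃ ζ : CyclotomicField n K₀, IsPrimitiveRoot ζ n :=
    ⟨_, IsCyclotomicExtension.zeta_spec n K₀ (CyclotomicField n K₀)⟩
  let f : CyclotomicField n K₀ →ₐ[ℚ] AlgebraicClosure ℚ := IsAlgClosed.lift
  let N : IntermediateField ℚ (AlgebraicClosure ℚ) :=
    IntermediateField.normalClosure ℚ (CyclotomicField n K₀) (AlgebraicClosure ℚ)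
  have hle : f.fieldRange ≤ N := AlgHom.fieldRange_le_normalClosure f
  have hfd : FiniteDimensional ℚ N :=
    normalClosure.is_finiteDimensional ℚ (CyclotomicField n K₀) (AlgebraicClosure ℚ)
  have hnQ : Normal ℚ (AlgebraicClosure ℚ) := by
    have h1 : IsAlgClosure ℚ (AlgebraicClosure ℚ) := by
      have h2 : Algebra.IsAlgebraic ℚ (AlgebraicClosure ℚ) := by
        have h3 := AlgebraicClosure.isAlgebraic ℚ
        have h4 : (AlgebraicClosure.instAlgebra ℚ : Algebra ℚ (AlgebraicClosure ℚ)) =
            DivisionRing.toRatAlgebra := Subsingleton.elim _ _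
        rw [h4] at h3
        exact h3
      exact ⟨inferInstance, h2⟩
    exact IsAlgClosure.normal ℚ (AlgebraicClosure ℚ)
  have hnorm : Normal ℚ N :=
    normalClosure.normal ℚ (CyclotomicField n K₀) (AlgebraicClosure ℚ)
  have hnf : NumberField N := { to_charZero := inferInstance, to_finiteDimensional := hfd }
  have hgal : IsGalois ℚ N := { to_isSeparable := inferInstance, to_normal := hnorm }
  let g : CyclotomicField n K₀ →ₐ[ℚ] N :=
    f.codRestrict N.toSubalgebra (fun x => hle ⟨x, rfl⟩)
  refine ⟨N, inferInstance, hnf, hgal, g ζ, ⟨(g : CyclotomicField n K₀ →+* N).comp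
    (algebraMap K₀ (CyclotomicField n K₀))⟩, ?_⟩
  exact hζ.map_of_injective g.toRingHom.injective

end H86KS
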